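import Mathlib
import Pool.Agent.N753.SU.Stm
import Pool.Agent.N753.SU.BadC

/-!
# Gauss norms of the fibres of a curve (subtask SU/G)
-/

set_option autoImplicit false
set_option linter.unusedSectionVars false

namespace Pool.Agent.N765.SU

open NumberField IsDedekindDomain Finset Pool.Agent.H691R3
open Pool.Agent.TH876.Loc hiding mx
open Pool.Agent.N753.LS Pool.Agent.N753.SF Polynomial Pool.Agent.N753.SU

section Alg

variable {K : Type} [Field K]

theorem bez {n : ℕ} (G : Fin n → K[X]) (h : ∀ g : K[X], (∀ i, g ∣ G i) → IsUnit g) :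
    ∃ B : Fin n → K[X], ∑ i, B i * G i = 1 := by
  obtain ⟨I, hI⟩ : ∃ I : Ideal K[X], I = Ideal.span (Set.range G) := ⟨_, rfl⟩
  have h1 : ∀ i, Submodule.IsPrincipal.generator I ∣ G i := by
    intro i
    rw [← Submodule.IsPrincipal.mem_iff_generator_dvd, hI]
    exact Ideal.subset_span ⟨i, rfl⟩
  have h2 := h _ h1
  have h3 : I = ⊤ := Ideal.eq_top_of_isUnit_mem _ (Submodule.IsPrincipal.generator_mem I) h2
  have h4 : (1 : K[X]) ∈ Ideal.span (Set.range G) := by
    rw [← hI, h3]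
    trivial
  exact Ideal.mem_span_range_iff_exists_fun.1 h4

theorem coeff_cop {F : K[X][X]} (hF : Irreducible F) (hd : 1 ≤ F.natDegree) (g : K[X])
    (hg : ∀ i : Fin (F.natDegree + 1), g ∣ F.coeff i) : IsUnit g := by
  have h1 : C g ∣ F := by
    rw [C_dvd_iff_dvd_coeff]
    intro i
    by_cases hi : i ≤ F.natDegree
    · exact hg ⟨i, by omega⟩
    · rw [coeff_eq_zero_of_natDegree_lt (by omega)]
      exact dvd_zero _
  obtain ⟨H, hH⟩ := h1
  rcases hF.isUnit_or_isUnit hH with h | h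
  · exact isUnit_C.1 h
  · exfalso
    have h2 := natDegree_eq_zero_of_isUnit h
    have h3 : F.natDegree ≤ (C g).natDegree + H.natDegree := by
      conv_lhs => rw [hH]
      exact natDegree_mul_le
    rw [h2, natDegree_C] at h3
    omega

theorem natDegree_coeff_le (F : K[X][X]) (i : ℕ) : (F.coeff i).natDegree ≤ dgi F := by
  by_cases hi : i ∈ F.support
  · exact Finset.le_sup (f := fun j => (F.coeff j).natDegree) hi
  · rw [notMem_support_iff.1 hi, natDegree_zero]
    exact Nat.zero_le _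

theorem exists_coeff {F : K[X][X]} (hF : F ≠ 0) :
    ∃ i : Fin (F.natDegree + 1), (F.coeff i).coeff (dgi F) ≠ 0 := by
  have h1 : F.support.Nonempty := nonempty_support_iff.2 hF
  obtain ⟨i, hi, h2⟩ := Finset.exists_mem_eq_sup _ h1 fun j => (F.coeff j).natDegree
  have h3 : i ≤ F.natDegree := le_natDegree_of_mem_supp _ hi
  refine ⟨⟨i, by omega⟩, ?_⟩
  have h4 : dgi F = (F.coeff i).natDegree := h2
  rw [h4]
  exact leadingCoeff_ne_zero.2 (mem_support_iff.1 hi)

theorem reflect_cop {F : K[X][X]} (hF : Irreducible F) (hd : 1 ≤ F.natDegree) (g : K[X])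
    (hg : ∀ i : Fin (F.natDegree + 1), g ∣ reflect (dgi F) (F.coeff i)) : IsUnit g := by
  by_contra hu
  obtain ⟨B, hB⟩ := bez _ (coeff_cop hF hd)
  obtain ⟨i0, hi0⟩ := exists_coeff hF.ne_zero
  have hg0 : g ≠ 0 := by
    rintro rfl
    have h1 := hg i0
    rw [zero_dvd_iff, reflect_eq_zero_iff] at h1
    rw [h1, coeff_zero] at hi0
    exact hi0 rfl
  have hdeg : g.degree ≠ 0 := by
    intro h
    exact hu (isUnit_iff_degree_eq_zero.2 h)
  obtain ⟨z, hz⟩ := IsAlgClosed.exists_aeval_eq_zero (AlgebraicClosure K) g hdeg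
  have h2 : ∀ i : Fin (F.natDegree + 1), aeval z (reflect (dgi F) (F.coeff i)) = 0 := by
    intro i
    obtain ⟨q, hq⟩ := hg i
    rw [hq, map_mul, hz, zero_mul]
  by_cases hz0 : z = 0
  · have h3 := h2 i0
    rw [hz0, aeval_def, eval₂_at_zero, coeff_reflect, revAt_zero, map_eq_zero] at h3
    exact hi0 h3
  · let _ : Invertible z⁻¹ := invertibleOfNonzero (inv_ne_zero hz0)
    have h3 : ∀ i : Fin (F.natDegree + 1), aeval z⁻¹ (F.coeff i) = 0 := by
      intro i
      have h4 := eval₂_reflect_mul_pow (algebraMap K (AlgebraicClosure K)) z⁻¹ (dgi F)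
        (F.coeff i) (natDegree_coeff_le F i)
      have h5 : ⅟(z⁻¹) = z := by
        rw [invOf_eq_inv, inv_inv]
      have h6 := h2 i
      rw [aeval_def] at h6
      rw [h5, h6, zero_mul] at h4
      rw [aeval_def]
      exact h4.symm
    have h4 := congrArg (aeval z⁻¹) hB
    rw [map_sum, map_one] at h4
    simp only [map_mul, h3, mul_zero, Finset.sum_const_zero] at h4
    exact zero_ne_one h4

/-- the constant -/
noncomputable def Mg (g : AbsoluteValue K ℝ) {ι : Type} [Fintype ι] (L : ι → K[X]) : ℝ :=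
  ∏ i, max 1 (gs g (L i))

theorem one_le_Mg (g : AbsoluteValue K ℝ) {ι : Type} [Fintype ι] (L : ι → K[X]) :
    1 ≤ Mg g L := by
  have h : ∏ i : ι, (1 : ℝ) ≤ ∏ i, max 1 (gs g (L i)) :=
    Finset.prod_le_prod (fun _ _ => zero_le_one) fun _ _ => le_max_left _ _
  rwa [Finset.prod_const_one] at h

theorem gs_le_Mg (g : AbsoluteValue K ℝ) {ι : Type} [Fintype ι] (L : ι → K[X]) (i : ι) :
    gs g (L i) ≤ Mg g L := by
  classical
  unfold Mg
  rw [← Finset.mul_prod_erase _ _ (Finset.mem_univ i)]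
  have h : ∏ j ∈ Finset.univ.erase i, (1 : ℝ) ≤ ∏ j ∈ Finset.univ.erase i, max 1 (gs g (L j)) :=
    Finset.prod_le_prod (fun _ _ => zero_le_one) fun _ _ => le_max_left _ _
  rw [Finset.prod_const_one] at h
  have h1 : gs g (L i) ≤ max 1 (gs g (L i)) := le_max_right _ _
  have h2 : (0 : ℝ) ≤ max 1 (gs g (L i)) := zero_le_one.trans (le_max_left _ _)
  nlinarith

/-- values of coprime polynomials on the unit disc -/
theorem low_abs {g : AbsoluteValue K ℝ} {A : ℝ} (hA : Qm g A) {n : ℕ} (G B : Fin n → K[X])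
    (h : ∑ i, B i * G i = 1) {M : ℝ} (hM : ∀ i, gs g (B i) ≤ M) {d : ℕ}
    (hd : ∀ i, (B i).natDegree ≤ d) (y : K) (hy : g y ≤ 1) :
    ∃ i, 1 ≤ A ^ (n + (d + 1)) * (M * g ((G i).eval y)) := by
  have hn : (Finset.univ : Finset (Fin n)).Nonempty := by
    by_contra hcon
    rw [Finset.not_nonempty_iff_eq_empty] at hcon
    rw [hcon, Finset.sum_empty] at h
    exact zero_ne_one h
  obtain ⟨i0, -, hmax⟩ := Finset.exists_max_image Finset.univ (fun i => g ((G i).eval y)) hn
  refine ⟨i0, ?_⟩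
  have hA0 : 0 ≤ A := zero_le_one.trans hA.1
  have hM0 : 0 ≤ M := (gs_nonneg g (B i0)).trans (hM i0)
  have h1 : ∑ i, (B i).eval y * (G i).eval y = 1 := by
    have := congrArg (eval y) h
    rw [eval_finsetSum, eval_one] at this
    rw [← this]
    exact Finset.sum_congr rfl fun i _ => eval_mul.symm
  have h2 : ∀ i ∈ (Finset.univ : Finset (Fin n)), g ((B i).eval y * (G i).eval y) ≤
      A ^ (d + 1) * (M * g ((G i0).eval y)) := by
    intro i hi
    rw [g.map_mul]
    have h3 := eval_le hA (hd i) y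
    rw [max_eq_right hy, one_pow, mul_one] at h3
    have h4 := hmax i hi
    calc g ((B i).eval y) * g ((G i).eval y)
        ≤ (A ^ (d + 1) * gs g (B i)) * g ((G i0).eval y) :=
          mul_le_mul h3 h4 (g.nonneg _) (mul_nonneg (pow_nonneg hA0 _) (gs_nonneg _ _))
      _ ≤ (A ^ (d + 1) * M) * g ((G i0).eval y) :=
          mul_le_mul_of_nonneg_right (mul_le_mul_of_nonneg_left (hM i) (pow_nonneg hA0 _))
            (g.nonneg _)
      _ = A ^ (d + 1) * (M * g ((G i0).eval y)) := by ring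
  have h5 := qm_sum hA Finset.univ _
    (mul_nonneg (pow_nonneg hA0 _) (mul_nonneg hM0 (g.nonneg _))) h2
  rw [h1, map_one, Finset.card_univ, Fintype.card_fin] at h5
  rw [pow_add, mul_assoc]
  exact h5

theorem natDegree_fam {n : ℕ} (B : Fin n → K[X]) : ∃ d : ℕ, ∀ i, (B i).natDegree ≤ d :=
  ⟨Finset.univ.sup fun i => (B i).natDegree, fun i =>
    Finset.le_sup (f := fun i => (B i).natDegree) (Finset.mem_univ i)⟩

theorem fib_coeff (F : K[X][X]) (y : K) (i : ℕ) : (fib F y).coeff i = (F.coeff i).eval y := by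
  unfold fib
  rw [coeff_map]
  rfl

theorem eval_reflect {f : K[X]} {a : ℕ} (hf : f.natDegree ≤ a) {y : K} (hy : y ≠ 0) :
    (reflect a f).eval y⁻¹ * y ^ a = f.eval y := by
  let _ : Invertible y := invertibleOfNonzero hy
  have h4 := eval₂_reflect_mul_pow (RingHom.id K) y a f hf
  rw [invOf_eq_inv] at h4
  exact h4

/-- the abstract bounds -/
theorem two_abs {F : K[X][X]} (hF : Irreducible F) (hd : 1 ≤ F.natDegree) :
    ∃ (T : ℕ) (ι : Type) (_ : Fintype ι) (L : ι → K[X]), ∀ (g : AbsoluteValue K ℝ) (A : ℝ),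
      Qm g A → ∀ y : K,
      max (g y) 1 ^ (dgi F) ≤ A ^ T * (Mg g L * gs g (fib F y)) ∧
        gs g (fib F y) ≤ A ^ T * (Mg g L * max (g y) 1 ^ (dgi F)) := by
  obtain ⟨B, hB⟩ := bez _ (coeff_cop hF hd)
  obtain ⟨B', hB'⟩ := bez _ (reflect_cop hF hd)
  obtain ⟨d, hd1⟩ := natDegree_fam B
  obtain ⟨d', hd2⟩ := natDegree_fam B'
  obtain ⟨n, hn⟩ : ∃ n, n = F.natDegree + 1 := ⟨_, rfl⟩
  obtain ⟨a, ha⟩ : ∃ a, a = dgi F := ⟨_, rfl⟩
  let L : (Fin (F.natDegree + 1) ⊕ Fin (F.natDegree + 1)) ⊕ Fin (F.natDegree + 1) → K[X] :=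
    Sum.elim (Sum.elim B B') fun i => F.coeff i
  refine ⟨n + (d + 1) + (d' + 1) + (a + 1), _, inferInstance, L, ?_⟩
  intro g A hA y
  have hM0 := one_le_Mg g L
  have hA0 : 0 ≤ A := zero_le_one.trans hA.1
  have hLB : ∀ i, gs g (B i) ≤ Mg g L := fun i => gs_le_Mg g L (Sum.inl (Sum.inl i))
  have hLB' : ∀ i, gs g (B' i) ≤ Mg g L := fun i => gs_le_Mg g L (Sum.inl (Sum.inr i))
  have hLF : ∀ i : Fin (F.natDegree + 1), gs g (F.coeff i) ≤ Mg g L :=
    fun i => gs_le_Mg g L (Sum.inr i)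
  obtain ⟨M, hM⟩ : ∃ M, M = Mg g L := ⟨_, rfl⟩
  rw [← hM] at hLB hLB' hLF hM0 ⊢
  have hM1 : 0 ≤ M := zero_le_one.trans hM0
  have hgs : ∀ i : ℕ, g ((F.coeff i).eval y) ≤ gs g (fib F y) := by
    intro i
    rw [← fib_coeff]
    exact le_gs _ _ _
  have hpow : ∀ T : ℕ, T ≤ n + (d + 1) + (d' + 1) + (a + 1) →
      A ^ T ≤ A ^ (n + (d + 1) + (d' + 1) + (a + 1)) := fun T hT => pow_le_pow_right₀ hA.1 hT
  constructor
  · rcases le_total (g y) 1 with hy | hy
    · obtain ⟨i, hi⟩ := low_abs hA _ B hB hLB hd1 y hy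
      rw [max_eq_right hy, one_pow]
      refine hi.trans ?_
      exact mul_le_mul (hpow _ (by omega)) (mul_le_mul_of_nonneg_left (hgs i) hM1)
        (mul_nonneg hM1 (g.nonneg _)) (pow_nonneg hA0 _)
    · have hy0 : y ≠ 0 := by
        rintro rfl
        rw [map_zero] at hy
        linarith
      have hy1 : g y⁻¹ ≤ 1 := by
        rw [map_inv₀]
        exact inv_le_one_of_one_le₀ hy
      obtain ⟨i, hi⟩ := low_abs hA _ B' hB' hLB' hd2 y⁻¹ hy1
      have h1 := eval_reflect (natDegree_coeff_le F i) hy0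
      have h2 : g ((reflect (dgi F) (F.coeff i)).eval y⁻¹) * g y ^ (dgi F) =
          g ((F.coeff i).eval y) := by
        rw [← h1, g.map_mul, g.map_pow]
      rw [max_eq_left hy]
      have h3 : 0 ≤ g y ^ (dgi F) := pow_nonneg (g.nonneg _) _
      calc g y ^ (dgi F) = 1 * g y ^ (dgi F) := (one_mul _).symm
        _ ≤ (A ^ (F.natDegree + 1 + (d' + 1)) *
            (M * g ((reflect (dgi F) (F.coeff i)).eval y⁻¹))) * g y ^ (dgi F) :=
          mul_le_mul_of_nonneg_right hi h3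
        _ = A ^ (F.natDegree + 1 + (d' + 1)) * (M * g ((F.coeff i).eval y)) := by
          rw [← h2]
          ring
        _ ≤ _ := mul_le_mul (hpow _ (by omega)) (mul_le_mul_of_nonneg_left (hgs i) hM1)
          (mul_nonneg hM1 (g.nonneg _)) (pow_nonneg hA0 _)
  · obtain ⟨i, hi⟩ := exists_gs g (fib F y)
    rw [← hi, fib_coeff]
    have hmx : 0 ≤ max (g y) 1 ^ (dgi F) := by positivity
    by_cases hi2 : i ≤ F.natDegree
    · refine (eval_le hA (natDegree_coeff_le F i) y).trans ?_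
      refine mul_le_mul (hpow _ (by omega)) (mul_le_mul_of_nonneg_right
        (hLF ⟨i, by omega⟩) hmx) (mul_nonneg (gs_nonneg _ _) hmx) (pow_nonneg hA0 _)
    · rw [coeff_eq_zero_of_natDegree_lt (by omega), eval_zero, map_zero]
      positivity

end Alg

variable {K : Type} [Field K] [NumberField K]

theorem gs_fin (f : K[X]) : {v : Pr K | 1 < gs (fv v) f}.Finite := by
  have h1 : (⋃ i ∈ Finset.range (f.natDegree + 1), {v : Pr K | mx (Sum.inr v) (f.coeff i) ≠ 0}).Finite :=
    Set.Finite.biUnion (Finset.finite_toSet _) fun i _ => mx_fin _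
  refine h1.subset ?_
  intro v hv
  obtain ⟨i, hi⟩ := exists_gs (fv v) f
  have hv' : 1 < gs (fv v) f := hv
  rw [← hi] at hv'
  have h2 : i ∈ Finset.range (f.natDegree + 1) := by
    by_contra hcon
    rw [Finset.mem_range, not_lt] at hcon
    rw [coeff_eq_zero_of_natDegree_lt (by omega), map_zero] at hv'
    linarith
  refine Set.mem_biUnion h2 ?_
  show Real.log (max (fv v (f.coeff i)) 1) ≠ 0
  rw [max_eq_left hv'.le]
  exact (Real.log_pos hv').ne'

/-- the constants of the places -/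
noncomputable def cst (T : ℕ) {ι : Type} [Fintype ι] (L : ι → K[X]) (p : Pl K) : ℝ :=
  Sum.elim (fun w : InfinitePlace K => (w.mult : ℝ) * (T * Real.log 2 + Real.log (Mg w.1 L)))
    (fun v : HeightOneSpectrum (𝓞 K) => Real.log (Mg (fv v) L)) p

theorem cst_nonneg (T : ℕ) {ι : Type} [Fintype ι] (L : ι → K[X]) (p : Pl K) :
    0 ≤ cst T L p := by
  rcases p with w | v
  · refine mul_nonneg (Nat.cast_nonneg _) (add_nonneg (mul_nonneg (Nat.cast_nonneg _)
      (Real.log_nonneg (by norm_num))) (Real.log_nonneg (one_le_Mg _ _)))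
  · exact Real.log_nonneg (one_le_Mg _ _)

theorem cst_fin (T : ℕ) {ι : Type} [Fintype ι] (L : ι → K[X]) :
    {p : Pl K | cst T L p ≠ 0}.Finite := by
  have h1 : (⋃ i : ι, {v : Pr K | 1 < gs (fv v) (L i)}).Finite :=
    Set.finite_iUnion fun i => gs_fin _
  have h2 : (Sum.inr '' (⋃ i : ι, {v : Pr K | 1 < gs (fv v) (L i)}) ∪
      Set.range (Sum.inl : InfinitePlace K → Pl K)).Finite :=
    (h1.image _).union (Set.finite_range _)
  refine h2.subset ?_
  rintro (w | v) hp
  · exact Or.inr ⟨w, rfl⟩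
  · left
    refine ⟨v, ?_, rfl⟩
    by_contra hcon
    apply hp
    rw [Set.mem_iUnion] at hcon
    push Not at hcon
    show Real.log (Mg (fv v) L) = 0
    have h3 : Mg (fv v) L = 1 := by
      unfold Mg
      refine Finset.prod_eq_one fun i _ => max_eq_left ?_
      have := hcon i
      rw [Set.mem_ofPred_eq, not_lt] at this
      exact this
    rw [h3, Real.log_one]

theorem stmG : Pool.Agent.N753.SU.StmG := by
  intro K _ _ F hF hd
  obtain ⟨T, ι, hι, L, h⟩ := two_abs hF hd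
  refine ⟨cst T L, cst_nonneg T L, cst_fin T L, ?_⟩
  intro y
  have hfib : fib F y ≠ 0 := by
    intro h0
    obtain ⟨w⟩ : Nonempty (InfinitePlace K) := inferInstance
    have h1 := (h w.1 2 (qm_two w.1) y).1
    rw [h0] at h1
    have h2 : gs w.1 (0 : K[X]) = 0 := by
      obtain ⟨i, hi⟩ := exists_gs w.1 (0 : K[X])
      rw [← hi, coeff_zero, map_zero]
    rw [h2, mul_zero, mul_zero] at h1
    have h3 : 0 < max (w.1 y) 1 ^ dgi F := pow_pos (zero_lt_one.trans_le (le_max_right _ _)) _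
    linarith
  refine ⟨hfib, ?_⟩
  have key : ∀ (g : AbsoluteValue K ℝ) (A : ℝ), Qm g A →
      (dgi F : ℝ) * Real.log (max (g y) 1) - (T * Real.log A + Real.log (Mg g L)) ≤
        Real.log (gs g (fib F y)) ∧ Real.log (gs g (fib F y)) ≤
        (dgi F : ℝ) * Real.log (max (g y) 1) + (T * Real.log A + Real.log (Mg g L)) := by
    intro g A hA
    obtain ⟨h1, h2⟩ := h g A hA y
    have hA0 : 0 < A := zero_lt_one.trans_le hA.1
    have hM0 : 0 < Mg g L := zero_lt_one.trans_le (one_le_Mg g L)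
    have hg0 := gs_pos g hfib
    have hm : 0 < max (g y) 1 := zero_lt_one.trans_le (le_max_right _ _)
    have h3 := Real.log_le_log (pow_pos hm _) h1
    have h4 := Real.log_le_log hg0 h2
    rw [Real.log_mul (pow_pos hA0 _).ne' (mul_pos hM0 hg0).ne', Real.log_mul hM0.ne' hg0.ne',
      Real.log_pow, Real.log_pow] at h3
    rw [Real.log_mul (pow_pos hA0 _).ne' (mul_pos hM0 (pow_pos hm _)).ne',
      Real.log_mul hM0.ne' (pow_pos hm _).ne', Real.log_pow, Real.log_pow] at h4
    constructor <;> linarith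
  rintro (w | v)
  · obtain ⟨h1, h2⟩ := key w.1 2 (qm_two w.1)
    have e1 : mx (Sum.inl w : Pl K) y = w.mult * Real.log (max (w.1 y) 1) := rfl
    have e2 : gn (Sum.inl w : Pl K) (fib F y) = w.mult * Real.log (gs w.1 (fib F y)) := rfl
    have e3 : cst T L (Sum.inl w : Pl K) = w.mult * (T * Real.log 2 + Real.log (Mg w.1 L)) := rfl
    have h0 : (0 : ℝ) ≤ w.mult := Nat.cast_nonneg _
    have h3 := mul_le_mul_of_nonneg_left h1 h0
    have h4 := mul_le_mul_of_nonneg_left h2 h0
    rw [e1, e2, e3]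
    constructor
    · refine le_trans (le_of_eq ?_) h3
      ring
    · refine h4.trans (le_of_eq ?_)
      ring
  · obtain ⟨h1, h2⟩ := key (fv v) 1 (qm_na v)
    rw [Real.log_one, mul_zero, zero_add] at h1 h2
    exact ⟨h1, h2⟩

end Pool.Agent.N765.SU
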