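import Mathlib

/-!
Counting permutations under Ferrers constraints and evaluating permanents of Ferrers sign
matrices modulo an odd number.
-/

set_option autoImplicit false

namespace Pool.Agent.N765.SignPerm

open Finset Equiv

/-- number of permutations `σ` with `σ l < b l` for `l ∈ S`. -/
def cnt (n : ℕ) (b : ℕ → ℕ) (S : Finset (Fin n)) : ℤ :=
  ∑ σ : Perm (Fin n), ∏ l ∈ S, (if (σ l : ℕ) < b l then (1 : ℤ) else 0)

lemma sum_ind_univ (n B : ℕ) (hB : B ≤ n) :
    ∑ r : Fin n, (if (r : ℕ) < B then (1 : ℤ) else 0) = B := by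
  rw [Fin.sum_univ_eq_sum_range (fun r => if r < B then (1 : ℤ) else 0) n]
  rw [Finset.sum_ite, Finset.sum_const_zero, add_zero, Finset.sum_const]
  have : (Finset.range n).filter (fun x => x < B) = Finset.range B := by
    ext x; simp; omega
  rw [this]; simp

lemma cnt_insert (n : ℕ) (b : ℕ → ℕ) (S : Finset (Fin n)) (m : Fin n) (hm : m ∉ S)
    (hS : ∀ l ∈ S, b l ≤ b m) (hb : b m ≤ n) :
    ((n : ℤ) - S.card) * cnt n b (insert m S) = ((b m : ℤ) - S.card) * cnt n b S := by
  classical
  set D : Fin n → ℤ := fun r => ∑ σ : Perm (Fin n), (if (σ r : ℕ) < b m then (1 : ℤ) else 0) *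
    ∏ l ∈ S, (if (σ l : ℕ) < b l then (1 : ℤ) else 0) with hD
  have h1 : cnt n b (insert m S) = D m := by
    simp only [cnt, hD]
    refine Finset.sum_congr rfl fun σ _ => ?_
    rw [Finset.prod_insert hm]
  have h2 : ∀ r ∉ S, D r = D m := by
    intro r hr
    simp only [hD]
    refine Fintype.sum_equiv (Equiv.mulRight (swap r m)) _ _ fun σ => ?_
    have e1 : (σ * swap r m) m = σ r := by simp
    have e2 : ∀ l ∈ S, (σ * swap r m) l = σ l := by
      intro l hl
      have : l ≠ r := fun h => hr (h ▸ hl)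
      have : l ≠ m := fun h => hm (h ▸ hl)
      simp [swap_apply_of_ne_of_ne, *]
    rw [Equiv.coe_mulRight, e1]
    congr 1
    refine Finset.prod_congr rfl fun l hl => ?_
    rw [e2 l hl]
  have h3 : ∑ r ∈ (univ \ S), D r = ((n : ℤ) - S.card) * D m := by
    rw [Finset.sum_congr rfl (fun r hr => h2 r (by simpa using hr))]
    rw [Finset.sum_const, nsmul_eq_mul]
    congr 1
    rw [Finset.card_sdiff_of_subset (Finset.subset_univ S)]
    simp only [Finset.card_univ, Fintype.card_fin]
    have : S.card ≤ n := by simpa using Finset.card_le_univ S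
    push_cast [Nat.cast_sub this]; ring
  have h4 : ∑ r ∈ (univ \ S), D r = ((b m : ℤ) - S.card) * cnt n b S := by
    simp only [hD, cnt]
    rw [Finset.sum_comm, Finset.mul_sum]
    refine Finset.sum_congr rfl fun σ _ => ?_
    rw [← Finset.sum_mul]
    by_cases hz : ∏ l ∈ S, (if (σ l : ℕ) < b l then (1 : ℤ) else 0) = 0
    · rw [hz]; ring
    · congr 1
      have hall : ∀ l ∈ S, (σ l : ℕ) < b l := by
        intro l hl
        by_contra hcon
        exact hz (Finset.prod_eq_zero hl (by simp [hcon]))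
      have e1 : ∑ r : Fin n, (if (σ r : ℕ) < b m then (1 : ℤ) else 0) = b m := by
        rw [Equiv.sum_comp σ (fun r => if (r : ℕ) < b m then (1 : ℤ) else 0)]
        exact sum_ind_univ n _ hb
      have e2 : ∑ r ∈ S, (if (σ r : ℕ) < b m then (1 : ℤ) else 0) = S.card := by
        rw [Finset.sum_congr rfl (g := fun _ => (1 : ℤ))]
        · simp
        · intro r hr
          rw [if_pos (lt_of_lt_of_le (hall r hr) (hS r hr))]
      have e3 := Finset.sum_sdiff (f := fun r => (if (σ r : ℕ) < b m then (1 : ℤ) else 0))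
        (Finset.subset_univ S)
      rw [e1, e2] at e3
      linarith
  rw [h1, ← h3, h4]

/-- the Goldman-Joichi-White recursion for the rook numbers of a Ferrers board. -/
def u (b : ℕ → ℕ) : ℕ → ℕ → ℤ
  | 0, 0 => 1
  | 0, _ + 1 => 0
  | i + 1, 0 => u b i 0
  | i + 1, k + 1 => u b i (k + 1) + ((b i : ℤ) - k) * u b i k

lemma u_zero_of_lt (b : ℕ → ℕ) : ∀ i k, i < k → u b i k = 0
  | 0, 0, h => by omega
  | 0, k + 1, _ => by simp [u]
  | i + 1, 0, h => by omega
  | i + 1, k + 1, h => by
    simp only [u]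
    rw [u_zero_of_lt b i (k + 1) (by omega), u_zero_of_lt b i k (by omega)]
    ring

lemma sum_cnt (n : ℕ) (b : ℕ → ℕ) (hmono : ∀ l l', l ≤ l' → l' < n → b l ≤ b l')
    (hb : ∀ l, l < n → b l ≤ n) :
    ∀ i, i ≤ n → ∀ k, k ≤ n →
      ∑ S ∈ powersetCard k (univ.filter (fun l : Fin n => (l : ℕ) < i)), cnt n b S
        = u b i k * ((n - k).factorial : ℤ) := by
  classical
  intro i
  induction i with
  | zero =>
    intro _ k hk
    have : (univ.filter (fun l : Fin n => (l : ℕ) < 0)) = ∅ := by simp
    rw [this]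
    cases k with
    | zero =>
      simp only [powersetCard_zero, sum_singleton, u, one_mul, Nat.sub_zero]
      simp only [cnt, prod_empty, sum_const, card_univ, Fintype.card_perm, Fintype.card_fin]
      simp
    | succ k =>
      rw [Finset.powersetCard_eq_empty.2 (by simp)]
      simp [u]
  | succ i ih =>
    intro hi k hk
    have hin : i < n := hi
    set x : Fin n := ⟨i, hin⟩ with hx
    set U := univ.filter (fun l : Fin n => (l : ℕ) < i) with hU
    have hins : univ.filter (fun l : Fin n => (l : ℕ) < i + 1) = insert x U := by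
      ext l
      simp only [hU, mem_filter, mem_univ, true_and, mem_insert, hx, Fin.ext_iff]
      omega
    have hxU : x ∉ U := by simp [hU, hx]
    rw [hins]
    cases k with
    | zero =>
      have := ih (by omega) 0 (by omega)
      simp only [powersetCard_zero] at this ⊢
      rw [this]; simp [u]
    | succ k =>
      have h1 := ih (by omega) (k + 1) hk
      have h2 := ih (by omega) k (by omega)
      rw [Finset.powersetCard_succ_insert hxU]
      rw [Finset.sum_union, h1, Finset.sum_image]
      · simp only [u]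
        have key : ∀ S ∈ powersetCard k U,
            ((n : ℤ) - k) * cnt n b (insert x S) = ((b i : ℤ) - k) * cnt n b S := by
          intro S hS
          rw [mem_powersetCard] at hS
          have hSx : x ∉ S := fun h => hxU (hS.1 h)
          have := cnt_insert n b S x hSx (fun l hl => by
            have := hS.1 hl
            simp only [hU, mem_filter, mem_univ, true_and] at this
            exact hmono _ _ (by simp [hx]; omega) (by simp [hx]; omega)) (hb _ (by simp [hx]; omega))
          rw [hS.2] at this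
          simpa [hx] using this
        have hsum : ((n : ℤ) - k) * ∑ S ∈ powersetCard k U, cnt n b (insert x S)
            = ((n : ℤ) - k) * (((b i : ℤ) - k) * u b i k * ((n - (k + 1)).factorial : ℤ)) := by
          rw [Finset.mul_sum, Finset.sum_congr rfl key, ← Finset.mul_sum, h2]
          have : (n - k) = (n - (k + 1)) + 1 := by omega
          rw [this, Nat.factorial_succ]
          push_cast
          have e : ((n - (k + 1) : ℕ) : ℤ) + 1 = (n : ℤ) - k := by
            rw [Nat.cast_sub hk]; push_cast; ring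
          rw [e]; ring
        have hne : ((n : ℤ) - k) ≠ 0 := by
          have : (k : ℤ) + 1 ≤ n := by exact_mod_cast hk
          omega
        have := mul_left_cancel₀ hne hsum
        rw [this]; ring
      · intro S hS S' hS' h
        simp only [mem_coe, mem_powersetCard] at hS hS'
        have a1 : x ∉ S := fun h => hxU (hS.1 h)
        have a2 : x ∉ S' := fun h => hxU (hS'.1 h)
        rw [← Finset.erase_insert a1, ← Finset.erase_insert a2, h]
      · rw [Finset.disjoint_left]
        intro S hS hS'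
        rw [mem_powersetCard] at hS
        rw [mem_image] at hS'
        obtain ⟨S', _, rfl⟩ := hS'
        exact hxU (hS.1 (mem_insert_self _ _))

/-- falling factorial on integers -/
def ff (y : ℤ) : ℕ → ℤ
  | 0 => 1
  | k + 1 => ff y k * (y - k)

lemma sum_u_ff (b : ℕ → ℕ) (y : ℤ) : ∀ i,
    ∑ k ∈ range (i + 1), u b i k * ff y (i - k) = ∏ l ∈ range i, (y + b l - l) := by
  intro i
  induction i with
  | zero => simp [u, ff]
  | succ i ih =>
    rw [Finset.prod_range_succ, ← ih, Finset.sum_range_succ']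
    have e0 : u b (i + 1) 0 = u b i 0 := by simp [u]
    have e1 : ∀ k, u b (i + 1) (k + 1) = u b i (k + 1) + ((b i : ℤ) - k) * u b i k := by
      intro k; simp [u]
    rw [e0]
    simp only [e1, Nat.add_sub_add_right, Nat.sub_zero]
    have h2 : ∑ k ∈ range (i + 1), u b i (k + 1) * ff y (i - k) + u b i 0 * ff y (i + 1)
        = ∑ k ∈ range (i + 1), u b i k * (ff y (i - k) * (y - ((i : ℤ) - k))) := by
      have h3 := Finset.sum_range_succ' (fun k => u b i k * ff y (i + 1 - k)) (i + 1)
      simp only [Nat.add_sub_add_right, Nat.sub_zero] at h3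
      rw [← h3, Finset.sum_range_succ, u_zero_of_lt b i (i + 1) (by omega), zero_mul, add_zero]
      refine Finset.sum_congr rfl fun k hk => ?_
      rw [Finset.mem_range] at hk
      have : i + 1 - k = (i - k) + 1 := by omega
      rw [this]
      simp only [ff]
      rw [Nat.cast_sub (by omega)]
    calc ∑ k ∈ range (i + 1), (u b i (k + 1) + ((b i : ℤ) - k) * u b i k) * ff y (i - k)
          + u b i 0 * ff y (i + 1)
        = (∑ k ∈ range (i + 1), u b i (k + 1) * ff y (i - k) + u b i 0 * ff y (i + 1))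
          + ∑ k ∈ range (i + 1), ((b i : ℤ) - k) * u b i k * ff y (i - k) := by
          simp only [add_mul, Finset.sum_add_distrib]; ring
      _ = _ := by
          rw [h2, ← Finset.sum_add_distrib, Finset.sum_mul]
          refine Finset.sum_congr rfl fun k _ => ?_
          ring

lemma ff_step (y : ℤ) : ∀ k, ff (y + 1) (k + 1) - ff y (k + 1) = (k + 1) * ff y k := by
  intro k
  induction k with
  | zero => simp [ff]
  | succ k ih =>
    have e1 : ff (y + 1) (k + 1 + 1) = ff (y + 1) (k + 1) * (y + 1 - ((k : ℤ) + 1)) := by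
      simp [ff]
    have e2 : ff y (k + 1 + 1) = ff y (k + 1) * (y - ((k : ℤ) + 1)) := by
      simp [ff]
    have e3 : ff y (k + 1) = ff y k * (y - k) := by simp [ff]
    rw [e1, e2]
    have : ff (y + 1) (k + 1) = ff y (k + 1) + (k + 1) * ff y k := by linarith
    rw [this, e3]
    push_cast
    ring

lemma ff_zero (k : ℕ) : ff 0 (k + 1) = 0 := by
  induction k with
  | zero => simp [ff]
  | succ k ih => rw [ff, ih]; ring

lemma dvd_ff (y : ℤ) (k : ℕ) : y ∣ ff y (k + 1) := by
  induction k with
  | zero => simp [ff]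
  | succ k ih => rw [ff]; exact Dvd.dvd.mul_right ih _

lemma fact_modEq (M : ℕ) (hM : Odd M) (k : ℕ) :
    (k.factorial : ℤ) ≡ (-2) ^ k * ∑ y ∈ range M, (-1) ^ y * ff (y : ℤ) k [ZMOD M] := by
  induction k with
  | zero =>
    have : ∑ y ∈ range M, (-1 : ℤ) ^ y * ff (y : ℤ) 0 = 1 := by
      simp only [ff, mul_one]
      obtain ⟨m, rfl⟩ := hM
      have := Finset.sum_range_succ (fun y => (-1 : ℤ) ^ y) (2 * m)
      rw [this]
      have h2 : ∀ m : ℕ, ∑ y ∈ range (2 * m), (-1 : ℤ) ^ y = 0 := by
        intro m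
        induction m with
        | zero => simp
        | succ m ih =>
          rw [show 2 * (m + 1) = 2 * m + 1 + 1 by ring, Finset.sum_range_succ,
            Finset.sum_range_succ, ih]
          simp [pow_succ, pow_mul]
      rw [h2]; simp [pow_mul]
    rw [this]; simp [Int.ModEq.refl]
  | succ k ih =>
    set S : ℕ → ℤ := fun k => ∑ y ∈ range M, (-1) ^ y * ff (y : ℤ) k with hS
    have h1 : ((k : ℤ) + 1) * S k = -2 * S (k + 1) + ff M (k + 1) := by
      have a1 : ((k : ℤ) + 1) * S k
          = ∑ y ∈ range M, (-1) ^ y * (ff ((y : ℤ) + 1) (k + 1) - ff (y : ℤ) (k + 1)) := by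
        simp only [hS, Finset.mul_sum]
        refine Finset.sum_congr rfl fun y _ => ?_
        rw [ff_step]; ring
      have a2 : ∑ y ∈ range M, (-1 : ℤ) ^ y * ff ((y : ℤ) + 1) (k + 1)
          = - (S (k + 1)) + ff M (k + 1) := by
        have b1 := Finset.sum_range_succ (fun y : ℕ => (-1 : ℤ) ^ y * ff (y : ℤ) (k + 1)) M
        have b2 := Finset.sum_range_succ' (fun y : ℕ => (-1 : ℤ) ^ y * ff (y : ℤ) (k + 1)) M
        rw [b1] at b2
        have b3 : ff (((0 : ℕ)) : ℤ) (k + 1) = 0 := by simpa using ff_zero k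
        rw [b3, mul_zero, add_zero, hM.neg_one_pow] at b2
        have b4 : ∑ y ∈ range M, (-1 : ℤ) ^ (y + 1) * ff (((y + 1 : ℕ)) : ℤ) (k + 1)
            = - ∑ y ∈ range M, (-1 : ℤ) ^ y * ff ((y : ℤ) + 1) (k + 1) := by
          rw [← Finset.sum_neg_distrib]
          refine Finset.sum_congr rfl fun y _ => ?_
          push_cast; ring
        rw [b4] at b2
        simp only [hS]
        linarith
      rw [a1]
      simp only [mul_sub, Finset.sum_sub_distrib]
      rw [a2]
      simp only [hS]; ring
    have h2 : ((k : ℤ) + 1) * S k ≡ -2 * S (k + 1) [ZMOD M] := by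
      rw [h1]
      have : ff M (k + 1) ≡ 0 [ZMOD M] := (Int.modEq_zero_iff_dvd).2 (dvd_ff _ _)
      simpa using (Int.ModEq.refl (-2 * S (k + 1))).add this
    calc (((k + 1).factorial : ℕ) : ℤ) = ((k : ℤ) + 1) * (k.factorial : ℤ) := by
          rw [Nat.factorial_succ]; push_cast; ring
      _ ≡ ((k : ℤ) + 1) * ((-2) ^ k * S k) [ZMOD M] := Int.ModEq.mul_left _ ih
      _ = (-2) ^ k * (((k : ℤ) + 1) * S k) := by ring
      _ ≡ (-2) ^ k * (-2 * S (k + 1)) [ZMOD M] := Int.ModEq.mul_left _ h2
      _ = (-2) ^ (k + 1) * S (k + 1) := by ring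

/-- The permanent of a Ferrers sign matrix modulo an odd number. -/
theorem ferrers_modEq (n : ℕ) (b : ℕ → ℕ) (hmono : ∀ l l', l ≤ l' → l' < n → b l ≤ b l')
    (hb : ∀ l, l < n → b l ≤ n) (M : ℕ) (hM : Odd M) :
    (∑ σ : Perm (Fin n), ∏ l : Fin n, (if (σ l : ℕ) < b l then (-1 : ℤ) else 1))
      ≡ (-2) ^ n * ∑ y ∈ range M, (-1) ^ y * ∏ l ∈ range n, ((y : ℤ) + b l - l) [ZMOD M] := by
  classical
  have h1 : (∑ σ : Perm (Fin n), ∏ l : Fin n, (if (σ l : ℕ) < b l then (-1 : ℤ) else 1))
      = ∑ k ∈ range (n + 1), (-2) ^ k * (u b n k * ((n - k).factorial : ℤ)) := by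
    have a1 : ∀ σ : Perm (Fin n), ∏ l : Fin n, (if (σ l : ℕ) < b l then (-1 : ℤ) else 1)
        = ∑ k ∈ range (n + 1), ∑ S ∈ powersetCard k (univ : Finset (Fin n)),
          (-2) ^ k * ∏ l ∈ S, (if (σ l : ℕ) < b l then (1 : ℤ) else 0) := by
      intro σ
      have : ∀ l : Fin n, (if (σ l : ℕ) < b l then (-1 : ℤ) else 1)
          = 1 + (-2) * (if (σ l : ℕ) < b l then (1 : ℤ) else 0) := by
        intro l; split_ifs <;> norm_num
      simp only [this]
      rw [Finset.prod_one_add, Finset.sum_powerset]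
      simp only [Finset.card_univ, Fintype.card_fin]
      refine Finset.sum_congr rfl fun k _ => ?_
      refine Finset.sum_congr rfl fun S hS => ?_
      rw [Finset.prod_mul_distrib, Finset.prod_const, (mem_powersetCard.1 hS).2]
    simp only [a1]
    rw [Finset.sum_comm]
    refine Finset.sum_congr rfl fun k hk => ?_
    rw [Finset.sum_comm]
    simp only [← Finset.mul_sum]
    congr 1
    have hfil : (univ.filter (fun l : Fin n => (l : ℕ) < n)) = univ := by
      ext l; simp
    have := sum_cnt n b hmono hb n le_rfl k (by rw [mem_range] at hk; omega)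
    rw [hfil] at this
    exact this
  rw [h1]
  have h2 : ∀ k ∈ range (n + 1), (-2 : ℤ) ^ k * (u b n k * ((n - k).factorial : ℤ))
      ≡ (-2) ^ k * (u b n k * ((-2) ^ (n - k) * ∑ y ∈ range M, (-1) ^ y * ff (y : ℤ) (n - k)))
        [ZMOD M] := fun k _ =>
    Int.ModEq.mul_left _ (Int.ModEq.mul_left _ (fact_modEq M hM _))
  have h3 : ∑ k ∈ range (n + 1), (-2 : ℤ) ^ k * (u b n k * ((n - k).factorial : ℤ))
      ≡ ∑ k ∈ range (n + 1), (-2) ^ k * (u b n k * ((-2) ^ (n - k) *
        ∑ y ∈ range M, (-1) ^ y * ff (y : ℤ) (n - k))) [ZMOD M] := by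
    apply Int.ModEq.sum
    exact h2
  refine h3.trans ?_
  have h4 : ∀ y : ℕ, ∏ l ∈ range n, ((y : ℤ) + b l - l)
      = ∑ k ∈ range (n + 1), u b n k * ff (y : ℤ) (n - k) := fun y => (sum_u_ff b y n).symm
  have h5 : ∀ A B : ℤ, A = B → A ≡ B [ZMOD M] := fun A B h => by rw [h]
  apply h5
  simp only [h4, Finset.mul_sum]
  rw [Finset.sum_comm]
  refine Finset.sum_congr rfl fun y _ => ?_
  refine Finset.sum_congr rfl fun k hk => ?_
  rw [mem_range] at hk
  have : (-2 : ℤ) ^ n = (-2) ^ k * (-2) ^ (n - k) := by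
    rw [← pow_add]; congr 1; omega
  rw [this]; ring

end Pool.Agent.N765.SignPerm
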