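import Pool.Agent.N765.SignPermCount

/-!
3-adic valuations of the cofactor permanents of a Ferrers sign matrix with one free line.
-/

set_option autoImplicit false

namespace Pool.Agent.N765.SignPerm

open Finset Equiv

lemma sum_range_three_mul (g : ℕ → ℤ) (m : ℕ) :
    ∑ y ∈ range (3 * m), g y = ∑ t ∈ range m, (g (3 * t) + g (3 * t + 1) + g (3 * t + 2)) := by
  induction m with
  | zero => simp
  | succ m ih =>
    rw [show 3 * (m + 1) = 3 * m + 1 + 1 + 1 by ring, Finset.sum_range_succ,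
      Finset.sum_range_succ, Finset.sum_range_succ, ih, Finset.sum_range_succ]
    ring

lemma alt_sum (m : ℕ) :
    4 * ∑ t ∈ range m, (-1 : ℤ) ^ t * ((t : ℤ) + 1) = 1 - (-1) ^ m * (2 * m + 1) := by
  induction m with
  | zero => simp
  | succ m ih =>
    rw [Finset.sum_range_succ, mul_add, ih]
    push_cast
    rw [pow_succ]
    ring

lemma pow_odd_modEq_three (x : ℤ) (q : ℕ) (hq : Odd q) : x ^ q ≡ x [ZMOD 3] := by
  obtain ⟨k, rfl⟩ := hq
  have h : x ^ 3 ≡ x [ZMOD 3] := by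
    have h3 : x % 3 = 0 ∨ x % 3 = 1 ∨ x % 3 = 2 := by omega
    have hx : x ≡ x % 3 [ZMOD 3] := (Int.mod_modEq x 3).symm
    refine (hx.pow 3).trans (Int.ModEq.trans ?_ hx.symm)
    rcases h3 with h | h | h <;> rw [h] <;> decide
  induction k with
  | zero => simp [Int.ModEq.refl]
  | succ k ih =>
    calc x ^ (2 * (k + 1) + 1) = x ^ (2 * k) * x ^ 3 := by ring
      _ ≡ x ^ (2 * k) * x [ZMOD 3] := h.mul_left _
      _ = x ^ (2 * k + 1) := by ring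
      _ ≡ x [ZMOD 3] := ih

lemma val_sum (q a c : ℕ) (hq : Odd q) (ha : q + 1 ≤ a) (hc : q + 1 ≤ c) :
    ∃ v : ℤ, ¬ (3 : ℤ) ∣ v ∧
      ∑ y ∈ range (3 ^ (q + 1)), (-1 : ℤ) ^ y * (((y : ℤ) + 2) ^ a * ((y : ℤ) + 1) ^ q * (y : ℤ) ^ c)
        ≡ 3 ^ q * v [ZMOD (3 ^ (q + 1))] := by
  refine ⟨∑ t ∈ range (3 ^ q), (-1 : ℤ) ^ t * ((3 * (t : ℤ) + 4) ^ a * ((t : ℤ) + 1) ^ q *
    (3 * (t : ℤ) + 2) ^ c), ?_, ?_⟩
  · intro hdvd
    have h1 : ∑ t ∈ range (3 ^ q), (-1 : ℤ) ^ t * ((3 * (t : ℤ) + 4) ^ a * ((t : ℤ) + 1) ^ q *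
        (3 * (t : ℤ) + 2) ^ c) ≡ ∑ t ∈ range (3 ^ q), (-1 : ℤ) ^ t * (1 * ((t : ℤ) + 1) * 2 ^ c)
        [ZMOD 3] := by
      apply Int.ModEq.sum
      intro t _
      refine Int.ModEq.mul_left _ ?_
      refine Int.ModEq.mul (Int.ModEq.mul ?_ (pow_odd_modEq_three _ _ hq)) (Int.ModEq.pow _ ?_)
      · have : (3 * (t : ℤ) + 4) ≡ 1 [ZMOD 3] := by
          rw [Int.modEq_iff_dvd]; exact ⟨-(t : ℤ) - 1, by ring⟩
        simpa using this.pow a
      · rw [Int.modEq_iff_dvd]; exact ⟨-(t : ℤ), by ring⟩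
    have h2 : ∑ t ∈ range (3 ^ q), (-1 : ℤ) ^ t * (1 * ((t : ℤ) + 1) * 2 ^ c)
        = 2 ^ c * ∑ t ∈ range (3 ^ q), (-1 : ℤ) ^ t * ((t : ℤ) + 1) := by
      rw [Finset.mul_sum]
      refine Finset.sum_congr rfl fun t _ => ?_
      ring
    have h3 : (3 : ℤ) ∣ 2 ^ c * ∑ t ∈ range (3 ^ q), (-1 : ℤ) ^ t * ((t : ℤ) + 1) := by
      rw [← h2]
      exact h1.dvd_iff.1 hdvd
    have h4 := alt_sum (3 ^ q)
    have hodd : Odd (3 ^ q) := Odd.pow (by decide)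
    rw [hodd.neg_one_pow] at h4
    have h5 : (3 : ℤ) ∣ 2 ^ c * (1 - -1 * (2 * ((3 ^ q : ℕ) : ℤ) + 1)) := by
      rw [← h4]
      obtain ⟨z, hz⟩ := h3
      exact ⟨4 * z, by linear_combination 4 * hz⟩
    have h6 : (3 : ℤ) ∣ 2 ^ c * 2 := by
      obtain ⟨q', rfl⟩ : ∃ q', q = q' + 1 := ⟨q - 1, by have := hq.pos; omega⟩
      obtain ⟨z, hz⟩ := h5
      refine ⟨z - 2 * 3 ^ q' * 2 ^ c, ?_⟩
      push_cast at hz
      rw [pow_succ] at hz
      linear_combination hz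
    have h7 : IsCoprime (3 : ℤ) (2 ^ c * 2) := by
      have : IsCoprime (3 : ℤ) 2 := ⟨1, -1, by norm_num⟩
      exact (this.pow_right).mul_right this
    have h8 := h7.isUnit_of_dvd' (dvd_refl _) h6
    rw [Int.isUnit_iff] at h8
    omega
  · have hr : range (3 ^ (q + 1)) = range (3 * 3 ^ q) := by rw [pow_succ']
    rw [hr, sum_range_three_mul, Finset.mul_sum]
    apply Int.ModEq.sum
    intro t _
    have e0 : (-1 : ℤ) ^ (3 * t) * ((((3 * t : ℕ) : ℤ) + 2) ^ a * (((3 * t : ℕ) : ℤ) + 1) ^ q *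
        ((3 * t : ℕ) : ℤ) ^ c) ≡ 0 [ZMOD (3 ^ (q + 1))] := by
      rw [Int.modEq_zero_iff_dvd]
      refine Dvd.dvd.mul_left (Dvd.dvd.mul_left ?_ _) _
      push_cast
      rw [mul_pow]
      exact Dvd.dvd.mul_right (pow_dvd_pow _ hc) _
    have e1 : (-1 : ℤ) ^ (3 * t + 1) * ((((3 * t + 1 : ℕ) : ℤ) + 2) ^ a *
        (((3 * t + 1 : ℕ) : ℤ) + 1) ^ q * ((3 * t + 1 : ℕ) : ℤ) ^ c) ≡ 0 [ZMOD (3 ^ (q + 1))] := by
      rw [Int.modEq_zero_iff_dvd]
      refine Dvd.dvd.mul_left (Dvd.dvd.mul_right (Dvd.dvd.mul_right ?_ _) _) _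
      have : ((3 * t + 1 : ℕ) : ℤ) + 2 = 3 * ((t : ℤ) + 1) := by push_cast; ring
      rw [this, mul_pow]
      exact Dvd.dvd.mul_right (pow_dvd_pow _ ha) _
    have e2 : (-1 : ℤ) ^ (3 * t + 2) * ((((3 * t + 2 : ℕ) : ℤ) + 2) ^ a *
        (((3 * t + 2 : ℕ) : ℤ) + 1) ^ q * ((3 * t + 2 : ℕ) : ℤ) ^ c)
        = 3 ^ q * ((-1 : ℤ) ^ t * ((3 * (t : ℤ) + 4) ^ a * ((t : ℤ) + 1) ^ q *
    (3 * (t : ℤ) + 2) ^ c)) := by
      have s1 : (-1 : ℤ) ^ (3 * t + 2) = (-1) ^ t := by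
        rw [pow_add, pow_mul]; norm_num
      rw [s1]
      have s2 : ((3 * t + 2 : ℕ) : ℤ) + 2 = 3 * (t : ℤ) + 4 := by push_cast; ring
      have s3 : ((3 * t + 2 : ℕ) : ℤ) + 1 = 3 * ((t : ℤ) + 1) := by push_cast; ring
      have s4 : ((3 * t + 2 : ℕ) : ℤ) = 3 * (t : ℤ) + 2 := by push_cast; ring
      rw [s2, s3, s4, mul_pow]
      ring
    rw [e2]
    have := (e0.add e1).add (Int.ModEq.refl (n := 3 ^ (q + 1)) (3 ^ q * ((-1 : ℤ) ^ t *
      ((3 * (t : ℤ) + 4) ^ a * ((t : ℤ) + 1) ^ q * (3 * (t : ℤ) + 2) ^ c))))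
    simpa using this

/-- lengths of the fixed lines -/
def h (a : ℕ) (l : ℕ) : ℕ := if l < a then l + 2 else l + 1

/-- weight of a permutation coming from the fixed lines -/
def w (N a : ℕ) (σ : Perm (Fin (N + 1))) : ℤ :=
  ∏ l : Fin N, (if (σ l.succ : ℕ) < h a l then (-1 : ℤ) else 1)

/-- permanent with the free line `v` -/
def V (N a : ℕ) (v : ℕ → ℤ) : ℤ := ∑ σ : Perm (Fin (N + 1)), v (σ 0) * w N a σ

def sg (j : ℕ) (r : ℕ) : ℤ := if r < j then -1 else 1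

def ev (j : ℕ) (r : ℕ) : ℤ := if r = j then 1 else 0

lemma V_sg_sub (N a j : ℕ) : V N a (sg j) - V N a (sg (j + 1)) = 2 * V N a (ev j) := by
  simp only [V, ← Finset.sum_sub_distrib, Finset.mul_sum]
  refine Finset.sum_congr rfl fun σ _ => ?_
  have : sg j (σ 0) - sg (j + 1) (σ 0) = 2 * ev j (σ 0) := by
    simp only [sg, ev]
    split_ifs <;> omega
  rw [← sub_mul, this]; ring

/-- sorted lengths -/
def Tl (a q : ℕ) (l : ℕ) : ℕ := if l < a then l + 2 else if l < a + q then l + 1 else l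

/-- lengths with the free line in front -/
def betaN (a j : ℕ) : ℕ → ℕ
  | 0 => j
  | l + 1 => h a l

lemma V_sg_eq (N a j : ℕ) :
    V N a (sg j) = ∑ σ : Perm (Fin (N + 1)), ∏ l : Fin (N + 1),
      (if (σ l : ℕ) < betaN a j l then (-1 : ℤ) else 1) := by
  simp only [V]
  refine Finset.sum_congr rfl fun σ _ => ?_
  rw [Fin.prod_univ_succ]
  simp only [betaN, w, sg, Fin.val_zero, Fin.val_succ]
  rfl

lemma V_sg_sorted (N a q : ℕ) (hq : 1 ≤ q) (haq : a + q ≤ N) :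
    V N a (sg (a + q)) = ∑ σ : Perm (Fin (N + 1)), ∏ l : Fin (N + 1),
      (if (σ l : ℕ) < Tl a q l then (-1 : ℤ) else 1) := by
  rw [V_sg_eq]
  set i : Fin (N + 1) := ⟨a + q, by omega⟩ with hi
  set τ := Fin.cycleRange i with hτ
  have h1 : ∀ l : Fin (N + 1), betaN a (a + q) (τ l) = Tl a q l := by
    intro l
    rcases lt_trichotomy l i with hl | hl | hl
    · have : ((τ l : Fin (N + 1)) : ℕ) = l + 1 := Fin.coe_cycleRange_of_lt hl
      rw [this]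
      have hl' : (l : ℕ) < a + q := by simpa [hi, Fin.lt_def] using hl
      simp only [betaN, h, Tl]
      split_ifs <;> first | rfl | omega
    · subst hl
      have : ((τ i : Fin (N + 1)) : ℕ) = 0 := by rw [hτ, Fin.cycleRange_self]; rfl
      rw [this]
      simp only [betaN, Tl, hi]
      split_ifs <;> omega
    · have : (τ l : Fin (N + 1)) = l := Fin.cycleRange_of_gt hl
      rw [this]
      have hl' : a + q < (l : ℕ) := by simpa [hi, Fin.lt_def] using hl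
      obtain ⟨l', hl''⟩ : ∃ l', (l : ℕ) = l' + 1 := ⟨l - 1, by omega⟩
      rw [hl'']
      simp only [betaN, h, Tl]
      split_ifs <;> first | rfl | omega
  refine (Fintype.sum_equiv (Equiv.mulRight τ) _ _ fun σ => ?_)
  rw [← Equiv.prod_comp τ (fun l => if (σ l : ℕ) < betaN a (a + q) l then (-1 : ℤ) else 1)]
  refine Finset.prod_congr rfl fun l _ => ?_
  rw [h1]
  rfl

lemma V_sg_modEq (N a q : ℕ) (hq : 1 ≤ q) (haq : a + q ≤ N) (M : ℕ) (hM : Odd M) :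
    V N a (sg (a + q)) ≡ (-2) ^ (N + 1) * ∑ y ∈ range M, (-1) ^ y *
      (((y : ℤ) + 2) ^ a * ((y : ℤ) + 1) ^ q * (y : ℤ) ^ (N + 1 - (a + q))) [ZMOD M] := by
  rw [V_sg_sorted N a q hq haq]
  have h1 := ferrers_modEq (N + 1) (Tl a q) (fun l l' hll' hl' => by
      simp only [Tl]; split_ifs <;> omega)
    (fun l hl => by simp only [Tl]; split_ifs <;> omega) M hM
  have h2 : ∀ y : ℕ, ∏ l ∈ range (N + 1), ((y : ℤ) + Tl a q l - l)
      = ((y : ℤ) + 2) ^ a * ((y : ℤ) + 1) ^ q * (y : ℤ) ^ (N + 1 - (a + q)) := by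
    intro y
    obtain ⟨c, hc⟩ : ∃ c, N + 1 = a + q + c := ⟨N + 1 - (a + q), by omega⟩
    rw [hc, Finset.prod_range_add, Finset.prod_range_add]
    have e1 : ∏ x ∈ range a, ((y : ℤ) + Tl a q x - x) = ((y : ℤ) + 2) ^ a := by
      rw [Finset.prod_congr rfl (g := fun _ => (y : ℤ) + 2)]
      · simp
      · intro x hx
        rw [mem_range] at hx
        simp only [Tl, if_pos hx]
        push_cast; ring
    have e2 : ∏ x ∈ range q, ((y : ℤ) + Tl a q (a + x) - ((a + x : ℕ) : ℤ))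
        = ((y : ℤ) + 1) ^ q := by
      rw [Finset.prod_congr rfl (g := fun _ => (y : ℤ) + 1)]
      · simp
      · intro x hx
        rw [mem_range] at hx
        have : Tl a q (a + x) = a + x + 1 := by
          simp only [Tl]; split_ifs <;> omega
        rw [this]
        push_cast; ring
    have e3 : ∏ x ∈ range c, ((y : ℤ) + Tl a q (a + q + x) - ((a + q + x : ℕ) : ℤ))
        = (y : ℤ) ^ (a + q + c - (a + q)) := by
      rw [Finset.prod_congr rfl (g := fun _ => (y : ℤ))]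
      · simp
      · intro x hx
        have : Tl a q (a + q + x) = a + q + x := by
          simp only [Tl]; split_ifs <;> omega
        rw [this]
        ring
    rw [e1, e2, e3]
  simp only [h2] at h1
  exact h1

/-- exact 3-adic valuation of the cofactor permanents -/
theorem val_cofactor (N a q : ℕ) (hq : Odd q) (ha : q + 1 ≤ a) (hN : a + 2 * q + 1 ≤ N) :
    (3 : ℤ) ^ q ∣ V N a (ev (a + q)) ∧ ¬ (3 : ℤ) ^ (q + 1) ∣ V N a (ev (a + q)) := by
  have hM : Odd (3 ^ (q + 1)) := Odd.pow (by decide)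
  have hq1 := hq.pos
  have h1 := V_sg_modEq N a q hq1 (by omega) _ hM
  have h2 := V_sg_modEq N a (q + 1) (by omega) (by omega) _ hM
  obtain ⟨c, hc⟩ : ∃ c, N + 1 = a + (q + 1) + c := ⟨N + 1 - (a + (q + 1)), by omega⟩
  obtain ⟨v, hv, hval⟩ := val_sum q a c hq ha (by omega)
  have e1 : N + 1 - (a + q) = c + 1 := by omega
  have e2 : N + 1 - (a + (q + 1)) = c := by omega
  rw [e1] at h1
  rw [e2] at h2
  have h3 := h1.sub h2
  rw [show a + (q + 1) = (a + q) + 1 by ring, V_sg_sub, ← mul_sub, ← Finset.sum_sub_distrib] at h3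
  have h4 : ∀ y : ℕ, (-1 : ℤ) ^ y * (((y : ℤ) + 2) ^ a * ((y : ℤ) + 1) ^ q * (y : ℤ) ^ (c + 1)) -
      (-1 : ℤ) ^ y * (((y : ℤ) + 2) ^ a * ((y : ℤ) + 1) ^ (q + 1) * (y : ℤ) ^ c)
      = - ((-1 : ℤ) ^ y * (((y : ℤ) + 2) ^ a * ((y : ℤ) + 1) ^ q * (y : ℤ) ^ c)) := by
    intro y; ring
  simp only [h4] at h3
  rw [Finset.sum_neg_distrib] at h3
  push_cast at h3
  have h5 : 2 * V N a (ev (a + q)) ≡ (-2) ^ (N + 1) * -(3 ^ q * v) [ZMOD 3 ^ (q + 1)] :=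
    h3.trans ((hval.neg).mul_left _)
  have hcop : IsCoprime (3 : ℤ) 2 := ⟨1, -1, by norm_num⟩
  constructor
  · have h6 : (3 : ℤ) ^ q ∣ 2 * V N a (ev (a + q)) := by
      have h7 : 2 * V N a (ev (a + q)) ≡ (-2) ^ (N + 1) * -(3 ^ q * v) [ZMOD 3 ^ q] :=
        h5.of_dvd (pow_dvd_pow _ (Nat.le_succ q))
      rw [← Int.modEq_zero_iff_dvd]
      refine h7.trans ?_
      rw [Int.modEq_zero_iff_dvd]
      exact ⟨(-2) ^ (N + 1) * -v, by ring⟩
    exact (hcop.pow_left).dvd_of_dvd_mul_left h6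
  · intro hcon
    have h6 : (3 : ℤ) ^ (q + 1) ∣ (-2) ^ (N + 1) * -(3 ^ q * v) :=
      h5.dvd_iff.1 (Dvd.dvd.mul_left hcon _)
    have h7 : (3 : ℤ) ^ q * 3 ∣ 3 ^ q * ((-2) ^ (N + 1) * v) := by
      rw [pow_succ] at h6
      obtain ⟨z, hz⟩ := h6
      exact ⟨-z, by linear_combination -hz⟩
    have h8 : (3 : ℤ) ∣ (-2) ^ (N + 1) * v :=
      (mul_dvd_mul_iff_left (pow_ne_zero _ (by norm_num))).1 h7
    have hcop2 : IsCoprime (3 : ℤ) ((-2) ^ (N + 1)) := by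
      have : IsCoprime (3 : ℤ) (-2) := ⟨1, 1, by norm_num⟩
      exact this.pow_right
    exact hv (hcop2.dvd_of_dvd_mul_left h8)

end Pool.Agent.N765.SignPerm
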